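import Pool.Statements.S03808
-- Withdrawn as a hand-in (helper5): the result is known (Aliaga-Nous-Petitjean-Prochazka 2021).
import Pool.Agent.K3h5.FL2.Ell2

set_option autoImplicit false
open Pool Pool.MP_0d9d33_an

namespace Pool.Agent.K3h5.FL2.CZero

open Pool.Agent.K3h5.FL2
open Pool.Agent.TH326.L1 (RL M M_eq M_add M_sub M_smul M_neg M_sum M_congr M_close M_zero Phi
  Phi_add_left Phi_smul_left Phi_single Phi_add_right Phi_smul_right Phi_zero_left WUC)

/-- The negation of the preceding statement: There are finitely supported combinations of point masses on real ell_2 forming a sequence equivalent to the unit basis of c_0 in the Lipschitz-free norm (sup over 1-Lipschitz f vanishing at 0), i.e. c_0 embeds isomorphically into F(ell_2). -/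
theorem cZero_not_in_FL2 :
    ¬ (∃ (μ : ℕ → (lp (fun _ : ℕ => ℝ) 2 →₀ ℝ)) (c C : ℝ), 0 < c ∧ 0 < C ∧
    (∀ (a : ℕ →₀ ℝ) (M : ℝ), (∀ k, |a k| ≤ M) →
      ∀ f : lp (fun _ : ℕ => ℝ) 2 → ℝ, LipschitzWith 1 f → f 0 = 0 →
        ((a.sum fun n t => t • μ n).sum fun x s => s * f x) ≤ C * M) ∧
    (∀ (a : ℕ →₀ ℝ) (k : ℕ), ∃ f : lp (fun _ : ℕ => ℝ) 2 → ℝ,
        LipschitzWith 1 f ∧ f 0 = 0 ∧
        c * |a k| ≤ ((a.sum fun n t => t • μ n).sum fun x s => s * f x))) := by
  rintro ⟨μ, c, C, hc, hC, H1, H2⟩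
  have hM : ∀ (ν : X2 →₀ ℝ) (f : X2 → ℝ), f 0 = 0 → ν.sum (fun x s => s * f x) = M ν f := by
    intro ν f hf
    unfold M
    refine Finsupp.sum_congr fun x _ => ?_
    rw [hf, sub_zero]
  have hPhi : ∀ (t : ℕ →₀ ℝ) (f : X2 → ℝ), f 0 = 0 →
      ((t.sum fun n s => s • μ n).sum fun x s => s * f x) = Phi μ t f := by
    intro t f hf
    unfold Phi
    rw [Finsupp.sum_sum_index (fun _ => by ring) (fun _ _ _ => by ring)]
    refine Finsupp.sum_congr fun n _ => ?_
    rw [← hM _ _ hf, Finsupp.sum_smul_index (fun _ => by ring), Finsupp.mul_sum]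
    exact Finsupp.sum_congr fun _ _ => by ring
  have hRL : ∀ f : X2 → ℝ, LipschitzWith 1 f ↔ RL 1 f := by
    intro f
    constructor
    · intro h x y
      have := h.dist_le_mul x y
      rwa [NNReal.coe_one, Real.dist_eq, dist_eq_norm] at this
    · intro h
      refine LipschitzWith.of_dist_le_mul fun x y => ?_
      rw [NNReal.coe_one, Real.dist_eq, dist_eq_norm]
      exact h x y
  -- weak unconditional Cauchyness
  have hW : WUC μ C := by
    intro θ hθ g K hK hg
    have hconst : ∀ h : X2 → ℝ, Phi μ θ h = Phi μ θ (fun x => h x - h 0) := by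
      intro h
      unfold Phi M
      simp
    rcases hK.lt_or_eq with hKpos | hK0
    · have h1 : RL 1 (fun x => K⁻¹ * (g x - g 0)) := by
        intro x y
        rw [← mul_sub, sub_sub_sub_cancel_right, abs_mul, abs_of_pos (inv_pos.mpr hKpos)]
        calc K⁻¹ * |g x - g y| ≤ K⁻¹ * (K * ‖x - y‖) :=
              mul_le_mul_of_nonneg_left (hg x y) (inv_pos.mpr hKpos).le
          _ = 1 * ‖x - y‖ := by field_simp
      have h2 := H1 θ 1 hθ _ ((hRL _).mpr h1) (by simp)
      rw [hPhi θ _ (by simp), mul_one] at h2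
      have h3 : Phi μ θ (fun x => K⁻¹ * (g x - g 0)) = K⁻¹ * Phi μ θ g := by
        rw [hconst g, ← Phi_smul_right]
        rfl
      rw [h3] at h2
      rw [inv_mul_le_iff₀ hKpos] at h2
      linarith
    · subst hK0
      have hgc : ∀ x, g x = g 0 := by
        intro x
        have := hg x 0
        rw [zero_mul] at this
        have h2 := abs_nonneg (g x - g 0)
        have h3 : |g x - g 0| = 0 := le_antisymm this h2
        linarith [abs_eq_zero.mp h3]
      have : Phi μ θ g = 0 := by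
        unfold Phi M
        simp [hgc]
      rw [this, mul_zero]
  -- lower bounds
  have hlow : ∀ j : ℕ, ∃ f : X2 → ℝ, RL 1 f ∧ f 0 = 0 ∧ c ≤ M (μ j) f := by
    intro j
    obtain ⟨f, hf, hf0, hfa⟩ := H2 (Finsupp.single j 1) j
    rw [Finsupp.single_eq_same, abs_one, mul_one, hPhi _ _ hf0, Phi_single, one_mul] at hfa
    exact ⟨f, (hRL f).mp hf, hf0, hfa⟩
  choose f hf hf0 hfM using hlow
  exact main D2 hC.le hW hc hf hf0 hfM

end Pool.Agent.K3h5.FL2.CZero
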