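import Pool.Agent.K3h5.FL2.Tail

set_option autoImplicit false

namespace Pool.Agent.K3h5.FL2

open scoped BigOperators
open Pool.Agent.TH326.L1 (RL M M_eq M_add M_sub M_smul M_neg M_sum M_congr M_close M_zero Phi
  Phi_add_left Phi_smul_left Phi_single Phi_add_right Phi_smul_right Phi_zero_left WUC avg avg_RL
  avg_abs avg_close avg_bound avg_sub cont_line Dir Dir_own)

variable {E : Type} [NormedAddCommGroup E] [NormedSpace ℝ E]

theorem avg_cyl (D : Dec E) {s : ℝ} {e : E} {g : E → ℝ} {n : ℕ} (hg : Cyl D n g) :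
    Cyl D n (avg s e g) := by
  intro x
  unfold avg
  congr 1
  congr 1
  ext τ
  rw [← hg (D.P n x + τ • e), ← hg (x + τ • e), map_add, map_add, D.P_high n n x le_rfl]

theorem smooth (D : Dec E) {K ε : ℝ} (hK : 0 ≤ K) {n : ℕ} {g : E → ℝ} (hg : RL K g)
    (hε : ∀ x, |g x| ≤ ε) (hn : Cyl D n g) (N : ℕ) : ∀ {η : ℝ}, 0 < η →
    ∃ g' : E → ℝ, RL K g' ∧ (∀ x, |g' x| ≤ ε) ∧ Cyl D n g' ∧ (∀ x, |g' x - g x| ≤ η) ∧
      ∃ C : ℝ, 0 ≤ C ∧ ∃ d : ℕ → E → ℝ, ∀ k, k < N → Dir C (D.e k) g' (d k) ∧
        (∀ x, |d k x| ≤ K) ∧ RL C (d k) ∧ Cyl D n (d k) := by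
  induction N with
  | zero =>
    intro η hη
    exact ⟨g, hg, hε, hn, fun x => by simp [hη.le], 0, le_rfl, fun _ _ => 0,
      fun k hk => absurd hk (Nat.not_lt_zero k)⟩
  | succ N ih =>
    intro η hη
    obtain ⟨g1, hg1, hε1, hn1, hcl1, C, hC, d, hd⟩ := ih (half_pos hη)
    set s : ℝ := η / (2 * (K + 1)) with hs
    have hspos : 0 < s := by positivity
    have hKs : K * s ≤ η / 2 := by
      rw [hs]
      have h1 : K * (η / (2 * (K + 1))) = (K / (K + 1)) * (η / 2) := by field_simp
      rw [h1]
      have h2 : K / (K + 1) ≤ 1 := by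
        rw [div_le_one (by positivity)]; linarith
      have h3 : 0 ≤ η / 2 := by positivity
      nlinarith
    have hKsn : 0 ≤ 2 * K / s := by positivity
    refine ⟨avg s (D.e N) g1, avg_RL hspos hK hg1, avg_abs hspos hε1, avg_cyl D hn1, ?_,
      C + 2 * K / s, by positivity,
      fun k => if k = N then (fun x => (g1 (x + s • D.e N) - g1 x) / s)
        else avg s (D.e N) (d k), ?_⟩
    · intro x
      have h1 := avg_close hspos (D.norm_e N) hK hg1 x
      have h2 := hcl1 x
      have h3 := abs_add_le (avg s (D.e N) g1 x - g1 x) (g1 x - g x)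
      rw [sub_add_sub_cancel] at h3
      linarith
    · intro k hk
      by_cases hkN : k = N
      · subst hkN
        simp only [if_true]
        refine ⟨(Dir_own (D.norm_e k) hK hg1 hspos).mono (by linarith), ?_, ?_, ?_⟩
        · intro x
          rw [abs_div, abs_of_pos hspos, div_le_iff₀ hspos]
          have := hg1 (x + s • D.e k) x
          rwa [add_sub_cancel_left, norm_smul, D.norm_e, mul_one, Real.norm_eq_abs,
            abs_of_pos hspos] at this
        · intro x y
          have h1 := hg1 (x + s • D.e k) (y + s • D.e k)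
          rw [add_sub_add_right_eq_sub] at h1
          have h2 := hg1 x y
          have h3 : |(g1 (x + s • D.e k) - g1 x) / s - (g1 (y + s • D.e k) - g1 y) / s| =
              |(g1 (x + s • D.e k) - g1 (y + s • D.e k)) - (g1 x - g1 y)| / s := by
            rw [← sub_div, abs_div, abs_of_pos hspos]
            congr 2; ring
          rw [h3, div_le_iff₀ hspos]
          have h4 := abs_sub (g1 (x + s • D.e k) - g1 (y + s • D.e k)) (g1 x - g1 y)
          have h5 : (C + 2 * K / s) * ‖x - y‖ * s = C * ‖x - y‖ * s + 2 * K * ‖x - y‖ := by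
            field_simp
          rw [h5]
          have h6 : 0 ≤ C * ‖x - y‖ * s := by positivity
          linarith
        · intro x
          simp only
          rw [← hn1 (D.P n x + s • D.e k), ← hn1 (x + s • D.e k), map_add, map_add,
            D.P_high n n x le_rfl, hn1 x]
      · simp only [if_neg hkN]
        have hk' : k < N := by omega
        obtain ⟨h1, h2, h3, h4⟩ := hd k hk'
        exact ⟨(h1.avg (hg1.continuous hK) (h3.continuous hC) hspos).mono (by linarith),
          avg_abs hspos h2, (avg_RL hspos hC h3).mono (by linarith), avg_cyl D h4⟩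

end Pool.Agent.K3h5.FL2
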